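import Pool.Agent.H798.BV.Stm4

set_option autoImplicit false

/-! MP_172a45_an, piece (EC): comparison of two integrals on `[0, T]`. -/

namespace Pool.Agent.H971.BV

open Pool.Agent.H798.BV

theorem prod_norm_le {m : ℕ} (l : Fin m → ℂ) (B : Finset (Fin m)) (t : ℝ) (ht : 0 ≤ t) :
    ‖∏ k ∈ B, (1 - ((t / m : ℝ) : ℂ) * l k)‖ ≤ Real.exp (t * ((∑ k ∈ B, ‖l k‖) / m)) := by
  have hm : (0:ℝ) ≤ m := Nat.cast_nonneg m
  have htm : 0 ≤ t / m := div_nonneg ht hm
  rw [norm_prod]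
  calc ∏ k ∈ B, ‖1 - ((t / m : ℝ) : ℂ) * l k‖
      ≤ ∏ k ∈ B, Real.exp (t / m * ‖l k‖) := by
        refine Finset.prod_le_prod (fun _ _ => norm_nonneg _) fun k _ => ?_
        calc ‖1 - ((t / m : ℝ) : ℂ) * l k‖ ≤ ‖(1:ℂ)‖ + ‖((t / m : ℝ) : ℂ) * l k‖ := norm_sub_le _ _
          _ = t / m * ‖l k‖ + 1 := by
              rw [norm_one, norm_mul, Complex.norm_real, Real.norm_of_nonneg htm]; ring
          _ ≤ Real.exp (t / m * ‖l k‖) := Real.add_one_le_exp _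
    _ = Real.exp (t * ((∑ k ∈ B, ‖l k‖) / m)) := by
        rw [← Real.exp_sum, ← Finset.mul_sum]
        congr 1
        ring

theorem int_exp_le (δ T : ℝ) (hδ : 0 < δ) (_hT : 0 ≤ T) (c : ℝ) (hc : 0 ≤ c) :
    ∫ t in (0:ℝ)..T, c * Real.exp (-(δ / 2 * t)) ≤ c * (2 / δ) := by
  have hd : ∀ t ∈ Set.uIcc (0:ℝ) T,
      HasDerivAt (fun t : ℝ => c * (-(2 / δ) * Real.exp (-(δ / 2 * t)))) (c * Real.exp (-(δ / 2 * t))) t := by
    intro t _
    have h1 : HasDerivAt (fun t : ℝ => -(δ / 2 * t)) (-(δ / 2 * 1)) t :=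
      ((hasDerivAt_id t).const_mul (δ / 2)).neg
    have h2 := ((h1.exp).const_mul (-(2 / δ))).const_mul c
    have h4 : c * (-(2 / δ) * (Real.exp (-(δ / 2 * t)) * (-(δ / 2 * 1)))) =
        c * Real.exp (-(δ / 2 * t)) := by
      have : δ ≠ 0 := hδ.ne'
      field_simp
    rw [h4] at h2
    exact h2
  rw [intervalIntegral.integral_eq_sub_of_hasDerivAt hd
    (Continuous.intervalIntegrable (by fun_prop) _ _)]
  simp only [mul_zero, neg_zero, Real.exp_zero, mul_one]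
  have h3 : 0 ≤ 2 / δ * Real.exp (-(δ / 2 * T)) := by positivity
  nlinarith [mul_nonneg hc h3]

theorem t_EC (h : S_EV) : S_EC := by
  intro m l δ η T hm hδ hη hT h1 h2 hl hre
  set B := Finset.univ.filter (fun k => η * m < ‖l k‖) with hB
  set A := Finset.univ.filter (fun k => ¬ η * m < ‖l k‖) with hA
  have hmR : (0:ℝ) < m := by exact_mod_cast (by omega : 0 < m)
  have hmC : (m:ℂ) ≠ 0 := by exact_mod_cast (by omega : m ≠ 0)
  set s := (∑ k ∈ A, l k) / (m:ℂ) with hs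
  have hcF : Continuous fun t : ℝ => ∏ k, (1 - ((t / m : ℝ) : ℂ) * l k) := by fun_prop
  have hcG : Continuous fun t : ℝ => (∏ k ∈ B, (1 - (t : ℂ) * (l k / m))) *
      Complex.exp (-((t : ℂ) * s)) := by fun_prop
  rw [← intervalIntegral.integral_sub (hcF.intervalIntegrable _ _) (hcG.intervalIntegrable _ _)]
  have hpt : ∀ t ∈ Set.Ioc (0:ℝ) T,
      ‖(∏ k, (1 - ((t / m : ℝ) : ℂ) * l k)) - (∏ k ∈ B, (1 - (t : ℂ) * (l k / m))) *
        Complex.exp (-((t : ℂ) * s))‖ ≤ 2 * η * T ^ 2 * Real.exp (-(δ / 2 * t)) := by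
    intro t ht
    have ht0 : 0 ≤ t := ht.1.le
    have e1 : ∏ k ∈ B, (1 - (t : ℂ) * (l k / m)) = ∏ k ∈ B, (1 - ((t / m : ℝ) : ℂ) * l k) := by
      refine Finset.prod_congr rfl fun k _ => ?_
      push_cast
      ring
    have e2 : ∏ k, (1 - ((t / m : ℝ) : ℂ) * l k) =
        (∏ k ∈ B, (1 - ((t / m : ℝ) : ℂ) * l k)) * ∏ k ∈ A, (1 - ((t / m : ℝ) : ℂ) * l k) :=
      (Finset.prod_filter_mul_prod_filter_not _ _ _).symm
    rw [e1, e2, ← mul_sub, norm_mul]
    have b1 := prod_norm_le l B t ht0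
    have b2 := h m l A η T t hm hη
      (fun k hk => not_lt.1 (Finset.mem_filter.1 hk).2)
      (le_trans (Finset.sum_le_sum_of_subset_of_nonneg (Finset.filter_subset _ _)
        fun _ _ _ => norm_nonneg _) hl) h1 h2 ht0 ht.2
    rw [← hs] at b2
    calc _ ≤ Real.exp (t * ((∑ k ∈ B, ‖l k‖) / m)) *
          (2 * η * T ^ 2 * Real.exp (-(t * s.re))) :=
          mul_le_mul b1 b2 (norm_nonneg _) (Real.exp_pos _).le
      _ = 2 * η * T ^ 2 * Real.exp (t * ((∑ k ∈ B, ‖l k‖) / m) + -(t * s.re)) := by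
          rw [Real.exp_add]; ring
      _ ≤ 2 * η * T ^ 2 * Real.exp (-(δ / 2 * t)) := by
          refine mul_le_mul_of_nonneg_left (Real.exp_le_exp.2 ?_) (by positivity)
          nlinarith [mul_le_mul_of_nonneg_left hre ht0]
  refine (intervalIntegral.norm_integral_le_of_norm_le hT (Filter.Eventually.of_forall hpt)
    (Continuous.intervalIntegrable (by fun_prop) _ _)).trans ?_
  refine (int_exp_le δ T hδ hT (2 * η * T ^ 2) (by positivity)).trans (le_of_eq ?_)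
  ring

end Pool.Agent.H971.BV
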