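import Pool.Agent.H798.BV.Stm5

set_option autoImplicit false

/-! # MP_172a45_an: the piece (PT) (helper971) -/

namespace Pool.Agent.H971.BV

open Pool.Agent.H798.BV

theorem exp_sub_one_le (ζ : ℂ) : ‖Complex.exp ζ - 1‖ ≤ ‖ζ‖ * Real.exp ‖ζ‖ := by
  have h := Convex.norm_image_sub_le_of_norm_deriv_le (𝕜 := ℂ) (f := Complex.exp)
    (C := Real.exp ‖ζ‖) (s := Metric.closedBall (0:ℂ) ‖ζ‖) (x := 0) (y := ζ)
    (fun x _ => Complex.differentiableAt_exp) ?_ (convex_closedBall _ _) (by simp) (by simp)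
  · rw [Complex.exp_zero, sub_zero] at h
    linarith [mul_comm ‖ζ‖ (Real.exp ‖ζ‖)]
  · intro x hx
    rw [Complex.deriv_exp, Complex.norm_exp]
    apply Real.exp_le_exp.2
    have h1 : x.re ≤ ‖x‖ := Complex.re_le_norm x
    have h2 : ‖x‖ ≤ ‖ζ‖ := by simpa using hx
    linarith

theorem exp_sub_one_le' (ζ : ℂ) (hζ : ζ.re ≤ 0) : ‖Complex.exp ζ - 1‖ ≤ ‖ζ‖ := by
  have h := Convex.norm_image_sub_le_of_norm_deriv_le (𝕜 := ℂ) (f := Complex.exp)
    (C := 1) (s := {z : ℂ | z.re ≤ 0}) (x := 0) (y := ζ)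
    (fun x _ => Complex.differentiableAt_exp) ?_ (convex_halfSpace_re_le 0) (by simp) hζ
  · rw [Complex.exp_zero, sub_zero] at h
    linarith
  · intro x hx
    rw [Complex.deriv_exp, Complex.norm_exp]
    have h1 : x.re ≤ 0 := hx
    exact Real.exp_le_one_iff.2 h1

theorem t_PT (h : S_TR) : S_PT := by
  intro m l A L κ τ hm hL hκ0 hκ1 hτ hl hsum hτL hre
  have hm0 : (0:ℝ) < m := by exact_mod_cast hm
  have hmC : (m:ℂ) ≠ 0 := by exact_mod_cast hm0.ne'
  have hnτ : ‖(τ:ℂ)‖ = τ := by rw [Complex.norm_real, Real.norm_eq_abs, abs_of_nonneg hτ]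
  obtain ⟨E, hE, hprod⟩ := h m l A L (τ:ℂ) (by linarith) hl hsum (by rw [hnτ]; exact hτL)
  rw [hnτ] at hE
  obtain ⟨s, hs⟩ : ∃ s : ℂ, s = (∑ k ∈ A, l k) / m := ⟨_, rfl⟩
  obtain ⟨Y, hY⟩ : ∃ Y : ℂ, Y = (∑ k ∈ A, l k ^ 2) / m := ⟨_, rfl⟩
  have hS : ∑ k ∈ A, l k = m * s := by rw [hs]; field_simp
  have hS2 : ∑ k ∈ A, l k ^ 2 = m * Y := by rw [hY]; field_simp
  rw [← hs, ← hY]
  rw [← hs] at hre
  have hYn : ‖Y‖ ≤ L := by
    rw [hY, norm_div, Complex.norm_natCast, div_le_iff₀ hm0]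
    calc ‖∑ k ∈ A, l k ^ 2‖ ≤ ∑ k ∈ A, ‖l k ^ 2‖ := norm_sum_le _ _
      _ ≤ ∑ k ∈ A, L * ‖l k‖ := by
          refine Finset.sum_le_sum (fun k hk => ?_)
          rw [norm_pow, pow_two]
          exact mul_le_mul_of_nonneg_right (hl k hk) (norm_nonneg _)
      _ = L * ∑ k ∈ A, ‖l k‖ := by rw [Finset.mul_sum]
      _ ≤ L * m := mul_le_mul_of_nonneg_left hsum (by linarith)
  obtain ⟨ζ, hζ⟩ : ∃ ζ : ℂ, ζ = -((((m * τ ^ 2 / 2 : ℝ)) : ℂ) * Y) + E := ⟨_, rfl⟩
  have hP : ∏ k ∈ A, (1 - (τ:ℂ) * l k) =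
      Complex.exp (-((m * τ : ℝ) * s)) * Complex.exp ζ := by
    rw [hprod, ← Complex.exp_add, hS, hS2, hζ]
    congr 1
    push_cast
    ring
  have hζn : ‖ζ‖ ≤ m * τ ^ 2 * L := by
    have h1 : ‖((((m * τ ^ 2 / 2 : ℝ)) : ℂ) * Y)‖ ≤ m * τ ^ 2 / 2 * L := by
      rw [norm_mul, Complex.norm_real, Real.norm_eq_abs, abs_of_nonneg (by positivity)]
      exact mul_le_mul_of_nonneg_left hYn (by positivity)
    have h2 : ‖ζ‖ ≤ m * τ ^ 2 / 2 * L + m * τ ^ 3 * L ^ 2 / 2 := by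
      rw [hζ]
      refine (norm_add_le _ _).trans ?_
      rw [norm_neg]
      linarith
    have h3 : m * τ ^ 3 * L ^ 2 / 2 = (m * τ ^ 2 * L) * (τ * L) / 2 := by ring
    have h4 : (m * τ ^ 2 * L) * (τ * L) ≤ (m * τ ^ 2 * L) * (1 / 4) :=
      mul_le_mul_of_nonneg_left hτL (by positivity)
    have h5 : 0 ≤ m * τ ^ 2 * L := by positivity
    rw [h3] at h2
    have h6 : m * τ ^ 2 / 2 * L = (m * τ ^ 2 * L) / 2 := by ring
    linarith
  have hn1 : ‖Complex.exp (-((m * τ : ℝ) * s))‖ = Real.exp (-(m * τ * s.re)) := by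
    rw [Complex.norm_exp]
    congr 1
    rw [Complex.neg_re, Complex.re_ofReal_mul]
  have hdiff : ‖∏ k ∈ A, (1 - (τ : ℂ) * l k) - Complex.exp (-((m * τ : ℝ) * s))‖ =
      Real.exp (-(m * τ * s.re)) * ‖Complex.exp ζ - 1‖ := by
    rw [hP, ← hn1, ← norm_mul]
    congr 1
    ring
  have hnorm : ‖∏ k ∈ A, (1 - (τ : ℂ) * l k)‖ = Real.exp (-(m * τ * s.re) + ζ.re) := by
    rw [hP, norm_mul, hn1, Complex.norm_exp ζ, Real.exp_add]
  have hmτ : 0 ≤ m * τ := by positivity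
  have hzr : ζ.re ≤ ‖ζ‖ := Complex.re_le_norm ζ
  constructor
  · intro hc
    have h1 : m * τ ^ 2 * L ≤ m * τ * ((1 - κ) / 2 * s.re) := by
      have : m * τ ^ 2 * L = (m * τ) * (τ * L) := by ring
      rw [this]
      exact mul_le_mul_of_nonneg_left hc hmτ
    constructor
    · rw [hdiff]
      calc Real.exp (-(m * τ * s.re)) * ‖Complex.exp ζ - 1‖
          ≤ Real.exp (-(m * τ * s.re)) * (m * τ ^ 2 * L * Real.exp (m * τ * ((1 - κ) / 2 * s.re))) := by
            apply mul_le_mul_of_nonneg_left _ (Real.exp_pos _).le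
            refine (exp_sub_one_le ζ).trans ?_
            apply mul_le_mul hζn (Real.exp_le_exp.2 (by linarith)) (Real.exp_pos _).le
            positivity
        _ = m * τ ^ 2 * L * (Real.exp (-(m * τ * s.re)) * Real.exp (m * τ * ((1 - κ) / 2 * s.re))) := by
            ring
        _ = m * τ ^ 2 * L * Real.exp (-(m * τ * ((1 + κ) / 2 * s.re))) := by
            rw [← Real.exp_add]
            congr 2
            ring
    · rw [hnorm]
      apply Real.exp_le_exp.2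
      have h2 : (m * τ) * ((1 - κ) / 2 * s.re) ≤ (m * τ) * (1 / 2 * s.re) := by
        apply mul_le_mul_of_nonneg_left _ hmτ
        apply mul_le_mul_of_nonneg_right _ hre
        linarith
      have h3 : (m * τ) * (1 / 2 * s.re) = m * τ * s.re / 2 := by ring
      have h4 : -(m * τ * s.re / 2) = -(m * τ * s.re) + m * τ * s.re / 2 := by ring
      rw [h4]
      linarith
  · intro hY1 hτ2
    have hL2 : 0 < L ^ 2 := by positivity
    have hτL2 : τ * L ^ 2 ≤ 1 / 24 := by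
      rw [le_div_iff₀ (by positivity)] at hτ2
      linarith
    have hzre : ζ.re ≤ -(m * τ ^ 2 / 48) := by
      have h1 : ζ.re = -(m * τ ^ 2 / 2 * Y.re) + E.re := by
        rw [hζ, Complex.add_re, Complex.neg_re, Complex.re_ofReal_mul]
      have h2 : E.re ≤ m * τ ^ 3 * L ^ 2 / 2 := (Complex.re_le_norm E).trans hE
      have h3 : m * τ ^ 2 / 2 * (1 / 12) ≤ m * τ ^ 2 / 2 * Y.re :=
        mul_le_mul_of_nonneg_left hY1 (by positivity)
      have h4 : m * τ ^ 3 * L ^ 2 / 2 = (m * τ ^ 2 / 2) * (τ * L ^ 2) := by ring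
      have h5 : (m * τ ^ 2 / 2) * (τ * L ^ 2) ≤ (m * τ ^ 2 / 2) * (1 / 24) :=
        mul_le_mul_of_nonneg_left hτL2 (by positivity)
      rw [h1]
      rw [h4] at h2
      linarith
    have hz0 : 0 ≤ m * τ ^ 2 / 48 := by positivity
    have hmre : 0 ≤ m * τ * s.re := mul_nonneg hmτ hre
    constructor
    · rw [hdiff]
      calc Real.exp (-(m * τ * s.re)) * ‖Complex.exp ζ - 1‖
          ≤ Real.exp (-(m * τ * ((1 + κ) / 2 * s.re))) * (m * τ ^ 2 * L) := by
            apply mul_le_mul _ _ (norm_nonneg _) (Real.exp_pos _).le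
            · apply Real.exp_le_exp.2
              have : m * τ * ((1 + κ) / 2 * s.re) ≤ m * τ * (1 * s.re) := by
                apply mul_le_mul_of_nonneg_left _ hmτ
                apply mul_le_mul_of_nonneg_right _ hre
                linarith
              linarith
            · exact (exp_sub_one_le' ζ (by linarith)).trans hζn
        _ = m * τ ^ 2 * L * Real.exp (-(m * τ * ((1 + κ) / 2 * s.re))) := by ring
    · rw [hnorm]
      apply Real.exp_le_exp.2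
      linarith

end Pool.Agent.H971.BV
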